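import Pool.Agent.X13.TP.Main

/-!
# There are infinitely many maximal `(ν₂, 4)`-progressions
-/

namespace Pool.Agent.Results.MP_c222f6_nt.InfinitelyMany

open Finset Pool.Agent.X13.TP

/-- `ν_k(n)`: the number of partitions of `n` in which exactly `k` distinct part sizes occur -/
def nuK (k n : ℕ) : ℕ := ((univ : Finset (Nat.Partition n)).filter
  fun p => p.parts.toFinset.card = k).card

/-- the set `P(A, B) = {A n + B : n ≥ 0}` -/
def Prog (q : ℕ × ℕ) : Set ℕ := {m | ∃ n, m = q.1 * n + q.2}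

/-- `(A, B)` is a `(ν_k, M)`-progression -/
def IsProg (k M : ℕ) (q : ℕ × ℕ) : Prop :=
  (1 ≤ q.1 ∧ 1 ≤ q.2 ∧ q.2 ≤ q.1) ∧ ∀ n, M ∣ nuK k (q.1 * n + q.2)

/-- `(A, B)` is a maximal `(ν_k, M)`-progression -/
def IsMaxProg (k M : ℕ) (q : ℕ × ℕ) : Prop :=
  IsProg k M q ∧ ∀ q', IsProg k M q' → ¬ (Prog q ⊂ Prog q')

theorem dvd_of_subset {q q' : ℕ × ℕ} (h : Prog q ⊆ Prog q') : q'.1 ∣ q.1 := by
  obtain ⟨a, ha⟩ := h ⟨0, rfl⟩
  obtain ⟨b, hb⟩ := h ⟨1, rfl⟩
  have h1 : q.1 + q'.1 * a = q'.1 * b := by omega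
  exact (Nat.dvd_add_left (dvd_mul_right q'.1 a)).mp (h1 ▸ dvd_mul_right q'.1 b)

theorem exists_max (k M : ℕ) : ∀ N : ℕ, ∀ q : ℕ × ℕ, q.1 ≤ N → IsProg k M q →
    ∃ q', IsMaxProg k M q' ∧ Prog q ⊆ Prog q' := by
  intro N
  induction N with
  | zero => intro q hN hq; have := hq.1.1; omega
  | succ N ih =>
    intro q hN hq
    by_cases hm : IsMaxProg k M q
    · exact ⟨q, hm, subset_rfl⟩
    · unfold IsMaxProg at hm
      push Not at hm
      obtain ⟨q', hq', hs⟩ := hm hq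
      have hd := dvd_of_subset hs.1
      have hle := Nat.le_of_dvd hq.1.1 hd
      have hlt : q'.1 < q.1 := by
        rcases lt_or_eq_of_le hle with h | h
        · exact h
        · exfalso
          apply hs.2
          obtain ⟨a, ha⟩ := hs.1 ⟨0, rfl⟩
          rw [mul_zero, zero_add] at ha
          have h1 := hq.1.2.2
          have h2 := hq'.1.2.1
          have ha0 : a = 0 := by
            by_contra hne
            have : q'.1 * 1 ≤ q'.1 * a := Nat.mul_le_mul_left _ (Nat.one_le_iff_ne_zero.mpr hne)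
            omega
          rw [ha0, mul_zero, zero_add] at ha
          have : q' = q := Prod.ext h ha.symm
          rw [this]
      obtain ⟨q'', h1, h2⟩ := ih q' (by omega) hq'
      exact ⟨q'', h1, hs.1.trans h2⟩

theorem nu_six : nu 2 6 = 6 := by
  have h := nu_eq 6 (by norm_num)
  have h1 : ∑ a ∈ Nat.divisors 6, a = 12 := by decide
  have h2 : (Nat.divisors 6).card = 4 := by decide
  have h3 : NN 6 = 20 := by
    unfold NN
    decide
  omega

theorem isProg (p : ℕ) (hp : p.Prime) (hp8 : p % 8 = 7) : IsProg 2 4 (4 * p ^ 2, 2 * p) := by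
  refine ⟨⟨?_, ?_, ?_⟩, ?_⟩
  · have := hp.pos
    show 1 ≤ 4 * p ^ 2
    have : 0 < p ^ 2 := by positivity
    omega
  · have := hp.pos
    show 1 ≤ 2 * p
    omega
  · show 2 * p ≤ 4 * p ^ 2
    nlinarith [hp.pos]
  · intro n
    show 4 ∣ nu 2 (4 * p ^ 2 * n + 2 * p)
    have e : 4 * p ^ 2 * n + 2 * p = 2 * p * (2 * (p * n) + 1) := by ring
    rw [e]
    refine four_dvd p _ hp hp8 (by omega) ?_
    intro h
    have h1 : p ∣ 1 := (Nat.dvd_add_right (Dvd.dvd.mul_left (dvd_mul_right p n) 2)).mp h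
    have := Nat.le_of_dvd one_pos h1
    omega

/-- There are infinitely many maximal `(ν₂, 4)`-progressions. -/
theorem result : {q : ℕ × ℕ | IsMaxProg 2 4 q}.Infinite := by
  intro hfin
  obtain ⟨N, hN⟩ : ∃ N, ∀ q : ℕ × ℕ, IsMaxProg 2 4 q → q.1 ≤ N := by
    refine ⟨hfin.toFinset.sup fun q => q.1, fun q hq => ?_⟩
    exact Finset.le_sup (f := fun q : ℕ × ℕ => q.1) (hfin.mem_toFinset.mpr hq)
  obtain ⟨p, hpN, hp, hp8⟩ := Nat.forall_exists_prime_gt_and_modEq N (q := 8) (a := 7)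
    (by norm_num) (by norm_num)
  have hp8' : p % 8 = 7 := hp8
  obtain ⟨q, hq, hs⟩ := exists_max 2 4 (4 * p ^ 2) (4 * p ^ 2, 2 * p) le_rfl (isProg p hp hp8')
  have hA := hN q hq
  have hd : q.1 ∣ 4 * p ^ 2 := dvd_of_subset hs
  have hcop : Nat.Coprime q.1 (p ^ 2) := by
    apply Nat.Coprime.pow_right
    rw [Nat.coprime_comm, Nat.Prime.coprime_iff_not_dvd hp]
    intro h
    have := Nat.le_of_dvd hq.1.1.1 h
    omega
  have hd4 : q.1 ∣ 4 := hcop.dvd_of_dvd_mul_right hd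
  obtain ⟨a, ha⟩ := hs ⟨0, rfl⟩
  simp only [mul_zero, zero_add] at ha
  have hle := Nat.le_of_dvd (by norm_num) hd4
  have h1 := hq.1.1.2.1
  have h2 := hq.1.1.2.2
  have h3 := hq.1.2
  -- `6` lies in the progression
  have h6 : ∃ n, 6 = q.1 * n + q.2 := by
    obtain ⟨A, B⟩ := q
    simp only at hd4 ha hle h1 h2 ⊢
    have hcase : A = 1 ∨ A = 2 ∨ A = 4 := by
      have : A ≠ 3 := by rintro rfl; omega
      omega
    rcases hcase with rfl | rfl | rfl
    · exact ⟨6 - B, by omega⟩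
    · exact ⟨2, by omega⟩
    · exact ⟨1, by omega⟩
  obtain ⟨n, hn⟩ := h6
  have h4 := h3 n
  rw [← hn] at h4
  have h5 : nuK 2 6 = 6 := nu_six
  rw [h5] at h4
  omega

end Pool.Agent.Results.MP_c222f6_nt.InfinitelyMany
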