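import Pool.Agent.X13.TP.Three2

/-!
# There are infinitely many maximal `(ν₃, 2)`-progressions
-/

namespace Pool.Agent.Results.MP_c222f6_nt.InfinitelyManyNu3

open Finset Pool.Agent.X13.TP

/-- `ν_k(n)`: the number of partitions of `n` in which exactly `k` distinct part sizes occur -/
def nuK (k n : ℕ) : ℕ := ((univ : Finset (Nat.Partition n)).filter
  fun p => p.parts.toFinset.card = k).card

/-- the set `P(A, B) = {A n + B : n ≥ 0}` -/
def Prog (q : ℕ × ℕ) : Set ℕ := {m | ∃ n, m = q.1 * n + q.2}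

/-- `(A, B)` is a `(ν_k, M)`-progression -/
def IsProg (k M : ℕ) (q : ℕ × ℕ) : Prop :=
  (1 ≤ q.1 ∧ 1 ≤ q.2 ∧ q.2 ≤ q.1) ∧ ∀ n, M ∣ nuK k (q.1 * n + q.2)

/-- `(A, B)` is a maximal `(ν_k, M)`-progression -/
def IsMaxProg (k M : ℕ) (q : ℕ × ℕ) : Prop :=
  IsProg k M q ∧ ∀ q', IsProg k M q' → ¬ (Prog q ⊂ Prog q')

theorem dvd_of_subset {q q' : ℕ × ℕ} (h : Prog q ⊆ Prog q') : q'.1 ∣ q.1 := by
  obtain ⟨a, ha⟩ := h ⟨0, rfl⟩
  obtain ⟨b, hb⟩ := h ⟨1, rfl⟩
  have h1 : q.1 + q'.1 * a = q'.1 * b := by omega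
  exact (Nat.dvd_add_left (dvd_mul_right q'.1 a)).mp (h1 ▸ dvd_mul_right q'.1 b)

theorem exists_max (k M : ℕ) : ∀ N : ℕ, ∀ q : ℕ × ℕ, q.1 ≤ N → IsProg k M q →
    ∃ q', IsMaxProg k M q' ∧ Prog q ⊆ Prog q' := by
  intro N
  induction N with
  | zero => intro q hN hq; have := hq.1.1; omega
  | succ N ih =>
    intro q hN hq
    by_cases hm : IsMaxProg k M q
    · exact ⟨q, hm, subset_rfl⟩
    · unfold IsMaxProg at hm
      push Not at hm
      obtain ⟨q', hq', hs⟩ := hm hq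
      have hd := dvd_of_subset hs.1
      have hle := Nat.le_of_dvd hq.1.1 hd
      have hlt : q'.1 < q.1 := by
        rcases lt_or_eq_of_le hle with h | h
        · exact h
        · exfalso
          apply hs.2
          obtain ⟨a, ha⟩ := hs.1 ⟨0, rfl⟩
          rw [mul_zero, zero_add] at ha
          have h1 := hq.1.2.2
          have h2 := hq'.1.2.1
          have ha0 : a = 0 := by
            by_contra hne
            have : q'.1 * 1 ≤ q'.1 * a := Nat.mul_le_mul_left _ (Nat.one_le_iff_ne_zero.mpr hne)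
            omega
          rw [ha0, mul_zero, zero_add] at ha
          have : q' = q := Prod.ext h ha.symm
          rw [this]
      obtain ⟨q'', h1, h2⟩ := ih q' (by omega) hq'
      exact ⟨q'', h1, hs.1.trans h2⟩

theorem nu_six : nu 3 6 % 2 = 1 := by
  have h := nu3_parity 3 1 (by norm_num) (by norm_num) (by norm_num) (by norm_num)
  simpa using h

/-- an integer `≡ -1 (mod p)`, `p ≡ 3 (mod 4)`, is not a square, so it has an even number of
divisors -/
theorem even_div (p r : ℕ) (hp : p.Prime) (hp4 : p % 4 = 3) (hr0 : 0 < r)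
    (hr : ((r : ℕ) : ZMod p) = -1) : r.divisors.card % 2 = 0 := by
  have hns : ¬ IsSquare r := by
    rintro ⟨s, rfl⟩
    have := Fact.mk hp
    push_cast at hr
    have h1 : (s : ZMod p) ^ 2 = -(1 : ZMod p) ^ 2 := by rw [pow_two, hr, one_pow]
    exact ZMod.mod_four_ne_three_of_sq_eq_neg_sq' one_ne_zero h1 hp4
  have h1 := dd_eq r
  rw [dd_card] at h1
  have h2 : Pool.Agent.X13.TP.sq r = 0 := by
    by_contra hne
    obtain ⟨a, -, ha⟩ := sq_ne hne
    exact hns ⟨a, ha.symm⟩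
  omega

theorem isProg (p : ℕ) (hp : p.Prime) (hp4 : p % 4 = 3) :
    IsProg 3 2 (4 * p ^ 2, 2 * p * (2 * p - 1)) := by
  have hp1 := hp.two_le
  obtain ⟨t, ht⟩ : ∃ t, 2 * p = t + 1 := ⟨2 * p - 1, by omega⟩
  have e0 : 2 * p - 1 = t := by omega
  have e1 : 4 * p ^ 2 = (2 * p) * (2 * p) := by ring
  refine ⟨⟨?_, ?_, ?_⟩, ?_⟩
  · show 1 ≤ 4 * p ^ 2
    have : 0 < p ^ 2 := by positivity
    omega
  · show 1 ≤ 2 * p * (2 * p - 1)
    rw [e0]
    have : 0 < 2 * p * t := Nat.mul_pos (by omega) (by omega)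
    omega
  · show 2 * p * (2 * p - 1) ≤ 4 * p ^ 2
    rw [e1]
    exact Nat.mul_le_mul_left _ (by omega)
  · intro n
    show 2 ∣ nu 3 (4 * p ^ 2 * n + 2 * p * (2 * p - 1))
    rw [e0]
    have e : 4 * p ^ 2 * n + 2 * p * t = 2 * p * (2 * (p * n) + t) := by ring
    have hcast : ((2 * (p * n) + t : ℕ) : ZMod p) = -1 := by
      have h1 : ((t + 1 : ℕ) : ZMod p) = 0 := by
        rw [← ht]; push_cast; rw [ZMod.natCast_self]; ring
      push_cast at h1 ⊢
      rw [ZMod.natCast_self]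
      linear_combination h1
    have hpr : ¬ p ∣ (2 * (p * n) + t) := by
      intro h
      rw [(ZMod.natCast_eq_zero_iff _ _).mpr h] at hcast
      have := Fact.mk hp
      have h1 : (1 : ZMod p) = 0 := by linear_combination hcast
      exact one_ne_zero h1
    rw [e]
    have h := nu3_parity p (2 * (p * n) + t) hp hp4 (by omega) hpr
    rw [even_div p _ hp hp4 (by omega) hcast] at h
    exact Nat.dvd_of_mod_eq_zero h

/-- There are infinitely many maximal `(ν₃, 2)`-progressions. -/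
theorem result : {q : ℕ × ℕ | IsMaxProg 3 2 q}.Infinite := by
  intro hfin
  obtain ⟨N, hN⟩ : ∃ N, ∀ q : ℕ × ℕ, IsMaxProg 3 2 q → q.1 ≤ N := by
    refine ⟨hfin.toFinset.sup fun q => q.1, fun q hq => ?_⟩
    exact Finset.le_sup (f := fun q : ℕ × ℕ => q.1) (hfin.mem_toFinset.mpr hq)
  obtain ⟨p, hpN, hp, hp4⟩ := Nat.forall_exists_prime_gt_and_modEq N (q := 4) (a := 3)
    (by norm_num) (by norm_num)
  have hp4' : p % 4 = 3 := hp4
  obtain ⟨q, hq, hs⟩ := exists_max 3 2 (4 * p ^ 2) (4 * p ^ 2, 2 * p * (2 * p - 1)) le_rfl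
    (isProg p hp hp4')
  have hA := hN q hq
  have hd : q.1 ∣ 4 * p ^ 2 := dvd_of_subset hs
  have hcop : Nat.Coprime q.1 (p ^ 2) := by
    apply Nat.Coprime.pow_right
    rw [Nat.coprime_comm, Nat.Prime.coprime_iff_not_dvd hp]
    intro h
    have := Nat.le_of_dvd hq.1.1.1 h
    omega
  have hd4 : q.1 ∣ 4 := hcop.dvd_of_dvd_mul_right hd
  obtain ⟨a, ha⟩ := hs ⟨0, rfl⟩
  simp only [mul_zero, zero_add] at ha
  have hm : (2 * p * (2 * p - 1)) % 4 = 2 := by
    obtain ⟨t, ht⟩ : ∃ t, p = 2 * t + 1 := ⟨p / 2, by omega⟩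
    have e : 2 * p * (2 * p - 1) = 4 * (4 * t ^ 2 + 3 * t) + 2 := by
      have e0 : 2 * p - 1 = 4 * t + 1 := by omega
      rw [e0, ht]; ring
    rw [e]; omega
  have hle := Nat.le_of_dvd (by norm_num) hd4
  have h1 := hq.1.1.2.1
  have h2 := hq.1.1.2.2
  have h3 := hq.1.2
  generalize 2 * p * (2 * p - 1) = m at ha hm
  -- `6` lies in the progression
  have h6 : ∃ n, 6 = q.1 * n + q.2 := by
    obtain ⟨A, B⟩ := q
    simp only at hd4 ha hle h1 h2 ⊢
    have hcase : A = 1 ∨ A = 2 ∨ A = 4 := by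
      have : A ≠ 3 := by rintro rfl; omega
      omega
    rcases hcase with rfl | rfl | rfl
    · exact ⟨6 - B, by omega⟩
    · exact ⟨2, by omega⟩
    · exact ⟨1, by omega⟩
  obtain ⟨n, hn⟩ := h6
  have h4 := h3 n
  rw [← hn] at h4
  have h5 : nuK 3 6 % 2 = 1 := nu_six
  omega

end Pool.Agent.Results.MP_c222f6_nt.InfinitelyManyNu3
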